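import Pool.Agent.U722.FF.Stm

set_option autoImplicit false

/-! Project FF, package BD: stabilizers of vertices have bounded degree. -/

namespace Pool.Agent.U669.FFP

open U722.FF MvPolynomial

theorem isUnit_totalDegree {n : ℕ} {p : MvPolynomial (Fin n) ℤ} (h : IsUnit p) :
    p.totalDegree = 0 := by
  obtain ⟨q, hq⟩ := h.exists_right_inv
  have hp0 : p ≠ 0 := h.ne_zero
  have hq0 : q ≠ 0 := by
    rintro rfl
    rw [mul_zero] at hq
    exact zero_ne_one hq
  have h1 := MvPolynomial.totalDegree_mul_of_isDomain hp0 hq0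
  rw [hq, MvPolynomial.totalDegree_one] at h1
  omega

theorem t_BD : S_BD := by
  intro n D hD u
  obtain ⟨N, hN⟩ := D.stab u
  refine ⟨N, fun h hu i j => ?_⟩
  have hdet : IsUnit h.1.det := (Matrix.isUnit_iff_isUnit_det _).1 h.isUnit
  have hd : D.v (toF n h).1.det = 0 := by
    have h1 : (toF n h).1.det = algebraMap (MvPolynomial (Fin n) ℤ)
        (FractionRing (MvPolynomial (Fin n) ℤ)) h.1.det := by
      rw [RingHom.map_det]
      rfl
    rw [h1, hD _ hdet.ne_zero, isUnit_totalDegree hdet]
    simp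
  have h2 := hN (toF n h) hd hu i j
  by_cases h0 : h.1 i j = 0
  · rw [h0, MvPolynomial.totalDegree_zero]
    exact Nat.zero_le _
  · have h3 : (toF n h).1 i j = algebraMap (MvPolynomial (Fin n) ℤ)
        (FractionRing (MvPolynomial (Fin n) ℤ)) (h.1 i j) := rfl
    rw [h3] at h2
    have h4 : algebraMap (MvPolynomial (Fin n) ℤ)
        (FractionRing (MvPolynomial (Fin n) ℤ)) (h.1 i j) ≠ 0 := by
      rw [Ne, FaithfulSMul.algebraMap_eq_zero_iff]
      exact h0
    have h5 := h2 h4
    rw [hD _ h0] at h5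
    omega

end Pool.Agent.U669.FFP
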